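import Pool.Agent.H500.AS.Stm

/-! Project AS of helper500, part 4: reciprocity with a modulus prime to `p`. -/

set_option autoImplicit false
set_option linter.unusedSectionVars false
set_option linter.deprecated false

namespace Pool.Agent.H962.AS.ARp

open NumberField IsDedekindDomain Pool.Agent.Q5.BR Pool.Agent.Q92.AR
open Pool.Agent.Q125.AR
open Pool.Agent.H500.AS

/-- the cyclic case -/
theorem arcp (hFirst : S_Firstp) (F E : Type) [Field F] [NumberField F] [Field E] [NumberField E]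
    [Algebra F E] [IsGalois F E] (σ : E ≃ₐ[F] E) (hσ : ∀ g : E ≃ₐ[F] E, g ∈ Subgroup.zpowers σ)
    (p : ℕ) (hp : p.Prime) (hun : UnrAt F E p) :
    ∃ N : ℕ, N ≠ 0 ∧ ¬ p ∣ N ∧ Ram F E N ∧
      ∀ (ψ : (E ≃ₐ[F] E) →* ℂˣ), ∀ x ∈ Ray F N, art ψ (prin x) = 0 := by
  classical
  have hFR : S_FR := Pool.Agent.Q225.AR.fr
  have hC : S_Cheb := Pool.Agent.Q14.AR.cheb
  have hCls : S_Cls := all_Cls
  have hNK : S_NKer := all_NKer
  have hSec : S_Sec := all_Sec
  obtain ⟨N, hN, hpN, hR, h1⟩ := hFirst F E σ hσ p hp hun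
  refine ⟨N, hN, hpN, hR, ?_⟩
  obtain ⟨h2, h3⟩ := hSec F E N hN
  have h4 : (HN F E N).relIndex (Pr F N) = Module.finrank F E := by
    rcases h1 with h1 | h1
    · exact absurd h1 h2
    · omega
  obtain ⟨ψ0, hψ0⟩ := exists_char σ hσ
  obtain ⟨d, hd, h5⟩ := ker_le hFR hC hCls σ hσ hN hR
  have hord : orderOf σ = Module.finrank F E := by
    rw [← IsGalois.card_aut_eq_finrank F E]
    exact orderOf_eq_card_of_forall_mem_zpowers hσ
  have hart : ∀ (ψ : (E ≃ₐ[F] E) →* ℂˣ) (D : Dv F),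
      art ψ D = (∑ v ∈ D.support, D v * (d v : ℤ)) • Additive.ofMul (ψ σ) := by
    intro ψ D
    rw [art_eq_sum, sum_zsmul']
    refine Finset.sum_congr rfl fun v _ => ?_
    rw [hd v, map_pow, ofMul_pow, mul_smul, natCast_zsmul]
  have hdvd : ∀ D : Dv F, art ψ0 D = 0 →
      ((Module.finrank F E : ℕ) : ℤ) ∣ ∑ v ∈ D.support, D v * (d v : ℤ) := by
    intro D hD
    rw [hart, ← ofMul_zpow, ← map_zpow] at hD
    have h6 : ψ0 (σ ^ (∑ v ∈ D.support, D v * (d v : ℤ))) = 1 := hD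
    have h7 : σ ^ (∑ v ∈ D.support, D v * (d v : ℤ)) = 1 := hψ0 (by rw [h6, map_one])
    rw [← hord]
    exact orderOf_dvd_iff_zpow_eq_one.2 h7
  -- the kernel lies in `HN`, with the same index
  have h8 : (art ψ0).ker ⊓ Pr F N ≤ HN F E N := fun D hD => h5 D hD.2 (hdvd D hD.1)
  have h9 := (hNK F E ψ0 N hN).2 hψ0
  have h10 : HN F E N ⊓ Pr F N ≤ (art ψ0).ker :=
    index_compare h8 (by rw [h9, ← h4]; exact h2) (by rw [h9]) h4
  intro ψ x hx
  have h11 : prin x ∈ HN F E N :=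
    AddSubgroup.mem_sup_left (AddSubgroup.subset_closure ⟨x, hx, rfl⟩)
  have h12 : art ψ0 (prin x) = 0 := h10 ⟨h11, prin_mem_Pr hx⟩
  obtain ⟨t, ht⟩ := hdvd _ h12
  rw [hart, ht, mul_smul, natCast_zsmul, ← ofMul_zpow, ← ofMul_pow, ← hord, ← map_zpow, ← map_pow,
    ← zpow_natCast, ← zpow_mul, mul_comm, zpow_mul, zpow_natCast, pow_orderOf_eq_one, one_zpow,
    map_one, ofMul_one]

/-- the ramified primes divide a number prime to `p` -/
theorem ram_prime_to {F M : Type} [Field F] [NumberField F] [Field M] [NumberField M] [Algebra F M]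
    {p : ℕ} (hp : p.Prime) (hun : UnrAt F M p) : ∃ N : ℕ, N ≠ 0 ∧ ¬ p ∣ N ∧ Ram F M N := by
  obtain ⟨N2, hN2, hR2⟩ := Pool.Agent.Q280.AR.rF F M
  obtain ⟨k, n, hn, hk⟩ := Nat.exists_eq_pow_mul_and_not_dvd hN2 p hp.ne_one
  refine ⟨n, ?_, hn, fun v hv => ?_⟩
  · rintro rfl
    exact hn (dvd_zero p)
  · have h1 := hR2 v hv
    rw [hk, Nat.cast_mul, Nat.cast_pow] at h1
    rcases v.isPrime.mem_or_mem h1 with h2 | h2
    · exact absurd (hun v (v.isPrime.mem_of_pow_mem _ h2)) hv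
    · exact h2

/-- PART 4 -/
theorem main : Pool.Agent.H500.AS.S_Firstp → Pool.Agent.H500.AS.S_ARp := by
  classical
  intro hFirst F M _ _ _ _ _ _ ψ p hp hun
  have hFR : S_FR := Pool.Agent.Q225.AR.fr
  let H : Subgroup (M ≃ₐ[F] M) := ψ.ker
  let E : IntermediateField F M := IntermediateField.fixedField H
  have hfix : E.fixingSubgroup = H := IntermediateField.fixingSubgroup_fixedField H
  have hGal : IsGalois F E := IsGalois.of_fixedField_normal_subgroup H
  -- the restriction map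
  let res : (M ≃ₐ[F] M) →* (E ≃ₐ[F] E) := AlgEquiv.restrictNormalHom E
  have hres : Function.Surjective res := AlgEquiv.restrictNormalHom_surjective M
  have hker : res.ker = ψ.ker := by
    change res.ker = H
    rw [← hfix]
    exact IntermediateField.restrictNormalHom_ker E
  -- the character of the quotient
  have hle : res.ker ≤ ψ.ker := hker.le
  let ψ' : (E ≃ₐ[F] E) →* ℂˣ := (MonoidHom.liftOfSurjective res hres) ⟨ψ, hle⟩
  have hψ' : ∀ g, ψ' (res g) = ψ g := fun g =>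
    MonoidHom.liftOfRightInverse_comp_apply res _ _ ⟨ψ, hle⟩ g
  have hinj : Function.Injective ψ' := by
    rw [injective_iff_map_eq_one]
    intro g hg
    obtain ⟨g, rfl⟩ := hres g
    rw [hψ'] at hg
    have h : g ∈ res.ker := by
      rw [hker]
      exact hg
    exact h
  have hcyc : IsCyclic (E ≃ₐ[F] E) :=
    isCyclic_of_subgroup_isDomain ((Units.coeHom ℂ).comp ψ') fun a b hab =>
      hinj (Units.ext hab)
  obtain ⟨σ, hσ⟩ := hcyc.exists_generator
  have hunE : UnrAt F E p := fun v hv => Unramified.sub (M := M) (hun v hv)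
  obtain ⟨N1, hN1, hpN1, hR1, h1⟩ := arcp hFirst F E σ hσ p hp hunE
  obtain ⟨N2, hN2, hpN2, hR2⟩ := ram_prime_to hp hun
  refine ⟨N1 * N2, mul_ne_zero hN1 hN2, ?_, Ram_mono (dvd_mul_left N2 N1) hR2, fun x hx => ?_⟩
  · intro h
    rcases hp.dvd_mul.1 h with h | h
    · exact hpN1 h
    · exact hpN2 h
  rw [← h1 ψ' x (Ray_mono (dvd_mul_right N1 N2) hx), art_eq_sum, art_eq_sum]
  refine Finset.sum_congr rfl fun v hv => ?_
  have hN : ((N1 * N2 : ℕ) : 𝓞 F) ∉ v.asIdeal := by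
    intro h
    exact (Finsupp.mem_support_iff.1 hv) (prin_mem_Pr hx v h)
  have hu : Unramified M v := by
    by_contra h
    apply hN
    rw [Nat.cast_mul]
    exact v.asIdeal.mul_mem_left _ (hR2 v h)
  have huE : Unramified E v := hu.sub
  have h2 : IsFrobenius v (AlgEquiv.restrictNormal (frob M v) E) :=
    hFR.1 F E M v (frob M v) (frob_spec v)
  have h3 := chi_frob huE (frob_spec (M := E) v) h2 ψ'
  have h4 : ψ' (AlgEquiv.restrictNormal (frob M v) E) = ψ (frob M v) := hψ' (frob M v)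
  rw [h3, h4]

end Pool.Agent.H962.AS.ARp
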