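import Pool.Agent.H500.AS.Stm

/-! Project AS of helper500, part 5: product of rays. -/

set_option autoImplicit false
set_option linter.unusedSectionVars false
set_option linter.deprecated false

namespace Pool.Agent.H962.AS.RayMul

open NumberField IsDedekindDomain Pool.Agent.Q5.BR Pool.Agent.Q92.AR
open Pool.Agent.H500.AS

section
variable {F : Type} [Field F] [NumberField F]

theorem vle (n : ℕ) (v : HeightOneSpectrum (𝓞 F)) : v.valuation F (n : F) ≤ 1 := by
  have h := v.valuation_le_one (K := F) (n : 𝓞 F)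
  simpa using h

theorem vlez (n : ℤ) (v : HeightOneSpectrum (𝓞 F)) : v.valuation F (n : F) ≤ 1 := by
  have h := v.valuation_le_one (K := F) (n : 𝓞 F)
  simpa using h

theorem vdvd {a : ℕ} {b : ℤ} (h : (a : ℤ) ∣ b) (v : HeightOneSpectrum (𝓞 F)) :
    v.valuation F (b : F) ≤ v.valuation F (a : F) := by
  obtain ⟨c, rfl⟩ := h
  rw [Int.cast_mul, Int.cast_natCast, map_mul]
  exact mul_le_of_le_one_right' (vlez c v)

/-- a prime number in `v` -/
theorem exists_prime {N : ℕ} (hN : N ≠ 0) {v : HeightOneSpectrum (𝓞 F)}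
    (hv : (N : 𝓞 F) ∈ v.asIdeal) : ∃ p : ℕ, p.Prime ∧ (p : 𝓞 F) ∈ v.asIdeal := by
  induction N using Nat.strong_induction_on with
  | _ N ih =>
    have h1 : N ≠ 1 := by
      rintro rfl
      rw [Nat.cast_one] at hv
      exact v.isPrime.ne_top ((Ideal.eq_top_iff_one _).2 hv)
    have hp := Nat.minFac_prime h1
    obtain ⟨n, hn⟩ := Nat.minFac_dvd N
    have hn0 : n ≠ 0 := by
      rintro rfl
      rw [mul_zero] at hn
      exact hN hn
    rw [hn, Nat.cast_mul] at hv
    rcases v.isPrime.mem_or_mem hv with h | h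
    · exact ⟨_, hp, h⟩
    · refine ih n ?_ hn0 h
      have h2 := hp.two_le
      calc n < N.minFac * n := by nlinarith [Nat.pos_of_ne_zero hn0]
        _ = N := hn.symm

/-- two integers agree up to a factor prime to `v` -/
theorem vmul {p : ℕ} (hp : p.Prime) {v : HeightOneSpectrum (𝓞 F)} (hv : (p : 𝓞 F) ∈ v.asIdeal)
    {k : ℕ} (hk : ¬ p ∣ k) : v.valuation F (k : F) = 1 := by
  refine Pool.Agent.Q149.AR.val_natCast_eq_one (N := p) ?_ hv
  exact ((hp.coprime_iff_not_dvd).2 hk).symm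

theorem notMem {p : ℕ} (hp : p.Prime) {v : HeightOneSpectrum (𝓞 F)} (hv : (p : 𝓞 F) ∈ v.asIdeal)
    {k : ℕ} (hk : ¬ p ∣ k) : (k : 𝓞 F) ∉ v.asIdeal := by
  refine (v.valuation_eq_one_iff_notMem (K := F)).1 ?_
  have h := vmul hp hv hk
  simpa using h

/-- the comparison with `m` -/
theorem vle_m {p : ℕ} (hp : p.Prime) {v : HeightOneSpectrum (𝓞 F)} (hv : (p : 𝓞 F) ∈ v.asIdeal)
    {m : ℕ} (hm : m ≠ 0) {w : ℤ} (hw : ∀ e : ℕ, p ^ e ∣ m → ((p ^ e : ℕ) : ℤ) ∣ w) :
    v.valuation F (w : F) ≤ v.valuation F (m : F) := by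
  obtain ⟨e, n, hn, hk⟩ := Nat.exists_eq_pow_mul_and_not_dvd hm p hp.ne_one
  have h1 : v.valuation F (m : F) = v.valuation F ((p ^ e : ℕ) : F) := by
    rw [hk, Nat.cast_mul, map_mul, vmul hp hv hn, mul_one]
  rw [h1]
  exact vdvd (hw e (by rw [hk]; exact dvd_mul_right _ _)) v

end

/-- the idempotent: `w ≡ 0` at the primes dividing `k`, `w ≡ 1` at the other ones, modulo `m` -/
theorem idem (k m : ℕ) (hm : m ≠ 0) : ∃ w : ℕ,
    (∀ p : ℕ, p.Prime → p ∣ k → ∀ e : ℕ, p ^ e ∣ m → ((p ^ e : ℕ) : ℤ) ∣ (w : ℤ)) ∧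
    (∀ p : ℕ, p.Prime → ¬ p ∣ k → ∀ e : ℕ, p ^ e ∣ m → ((p ^ e : ℕ) : ℤ) ∣ (w : ℤ) - 1) := by
  refine ⟨k ^ (m.totient * m), fun p hp hk e he => ?_, fun p hp hk e he => ?_⟩
  · rw [Int.natCast_dvd_natCast]
    have h1 : e ≤ m.totient * m := by
      have h2 : e < p ^ e := Nat.lt_pow_self hp.one_lt
      have h3 : p ^ e ≤ m := Nat.le_of_dvd (Nat.pos_of_ne_zero hm) he
      have h4 : 0 < m.totient := Nat.totient_pos.2 (Nat.pos_of_ne_zero hm)
      nlinarith
    exact (pow_dvd_pow_of_dvd hk e).trans (pow_dvd_pow k h1)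
  · have hc : Nat.Coprime k (p ^ e) := (((hp.coprime_iff_not_dvd).2 hk).symm).pow_right e
    have h1 : k ^ (p ^ e).totient ≡ 1 [MOD p ^ e] := Nat.ModEq.pow_totient hc
    obtain ⟨c, hc2⟩ := (Nat.totient_dvd_of_dvd he).mul_right m
    rw [hc2, pow_mul]
    have h2 := h1.pow c
    rw [one_pow] at h2
    exact (Nat.modEq_iff_dvd.1 h2.symm)

section
variable {F : Type} [Field F] [NumberField F]

/-- a common denominator -/
theorem exists_D (x : F) : ∃ D : ℕ, D ≠ 0 ∧ ∀ v : HeightOneSpectrum (𝓞 F),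
    v.valuation F (D : F) * v.valuation F x ≤ 1 := by
  obtain ⟨D, hD, w, hw⟩ := Pool.Agent.Q84.AR.exists_nat_den x
  refine ⟨D, hD, fun v => ?_⟩
  rw [mul_comm, ← map_mul]
  have h : x * (D : F) = (w : F) := by
    have h1 := hw
    rw [map_natCast] at h1
    exact h1
  rw [h]
  exact v.valuation_le_one w

/-- the element before the correction of the signs -/
theorem exists_y0 (N N' : ℕ) (hN : N ≠ 0) (hN' : N' ≠ 0) (x : F) (hx0 : x ≠ 0)
    (hx : Cong (Nat.gcd N N') x) : ∃ y : F, y ≠ 0 ∧ Cong N y ∧ Cong N' (x / y) := by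
  obtain ⟨k, k', hkk, hk, hk'⟩ := Nat.exists_coprime N N'
  obtain ⟨g, hg⟩ : ∃ g, g = Nat.gcd N N' := ⟨_, rfl⟩
  rw [← hg] at hk hk' hx
  obtain ⟨D1, hD1, hD1v⟩ := exists_D (x - 1)
  obtain ⟨D2, hD2, hD2v⟩ := exists_D (1 - x⁻¹)
  obtain ⟨m, hm⟩ : ∃ m, m = D1 * D2 * N * N' := ⟨_, rfl⟩
  have hm0 : m ≠ 0 := by
    rw [hm]
    exact mul_ne_zero (mul_ne_zero (mul_ne_zero hD1 hD2) hN) hN'
  obtain ⟨w0, hA0, hB0⟩ := idem k m hm0
  -- choice of `w` with `1 + w (x - 1) ≠ 0`
  obtain ⟨w, hw0, hA, hB⟩ : ∃ w : ℤ, 1 + (w : F) * (x - 1) ≠ 0 ∧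
      (∀ p : ℕ, p.Prime → p ∣ k → ∀ e : ℕ, p ^ e ∣ m → ((p ^ e : ℕ) : ℤ) ∣ w) ∧
      (∀ p : ℕ, p.Prime → ¬ p ∣ k → ∀ e : ℕ, p ^ e ∣ m → ((p ^ e : ℕ) : ℤ) ∣ w - 1) := by
    by_cases h : 1 + (((w0 : ℕ) : ℤ) : F) * (x - 1) = 0
    · refine ⟨(w0 : ℤ) + (m : ℤ), fun h2 => ?_, fun p hp hk e he => ?_, fun p hp hk e he => ?_⟩
      · have h3 : (m : F) * (x - 1) = 0 := by
          push_cast at h h2
          linear_combination h2 - h
        have hmF : (m : F) ≠ 0 := Nat.cast_ne_zero.2 hm0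
        have h4 : x - 1 = 0 := (mul_eq_zero.1 h3).resolve_left hmF
        rw [h4, mul_zero, add_zero] at h
        exact one_ne_zero h
      · exact dvd_add (hA0 p hp hk e he) (Int.natCast_dvd_natCast.2 he)
      · have h3 : (w0 : ℤ) + (m : ℤ) - 1 = ((w0 : ℤ) - 1) + (m : ℤ) := by ring
        rw [h3]
        exact dvd_add (hB0 p hp hk e he) (Int.natCast_dvd_natCast.2 he)
    · exact ⟨w0, h, hA0, hB0⟩
  have hvm : ∀ v : HeightOneSpectrum (𝓞 F), v.valuation F (m : F)
      = v.valuation F (D1 : F) * v.valuation F (D2 : F) * v.valuation F (N : F)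
        * v.valuation F (N' : F) := by
    intro v
    rw [hm]
    push_cast
    rw [map_mul, map_mul, map_mul]
  -- first congruence
  have hy1 : 1 + (w : F) * (x - 1) - 1 = (w : F) * (x - 1) := by ring
  have key : ∀ {v : HeightOneSpectrum (𝓞 F)} {p : ℕ}, p.Prime → (p : 𝓞 F) ∈ v.asIdeal → p ∣ k →
      v.valuation F ((w : F) * (x - 1)) ≤ v.valuation F (N : F) := by
    intro v p hp hpv hpk
    rw [map_mul]
    have h1 := vle_m hp hpv hm0 (hA p hp hpk)
    calc v.valuation F (w : F) * v.valuation F (x - 1)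
        ≤ v.valuation F (m : F) * v.valuation F (x - 1) := mul_le_mul_left h1 _
      _ = (v.valuation F (D1 : F) * v.valuation F (x - 1)) * (v.valuation F (D2 : F)
          * (v.valuation F (N' : F) * v.valuation F (N : F))) := by
          rw [hvm]
          ac_rfl
      _ ≤ 1 * (1 * (1 * v.valuation F (N : F))) := by
          refine mul_le_mul' (hD1v v) (mul_le_mul' (vle D2 v) (mul_le_mul' (vle N' v) le_rfl))
      _ = v.valuation F (N : F) := by rw [one_mul, one_mul, one_mul]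
  have hc1 : Cong N (1 + (w : F) * (x - 1)) := by
    intro v hv
    rw [hy1]
    obtain ⟨p, hp, hpv⟩ := exists_prime hN hv
    by_cases hpk : p ∣ k
    · exact key hp hpv hpk
    · have hvk : v.valuation F (k : F) = 1 := vmul hp hpv hpk
      have hkv : (k : 𝓞 F) ∉ v.asIdeal := notMem hp hpv hpk
      have hgv : (g : 𝓞 F) ∈ v.asIdeal := by
        rw [hk, Nat.cast_mul] at hv
        exact (v.isPrime.mem_or_mem hv).resolve_left hkv
      have h3 : v.valuation F (N : F) = v.valuation F (g : F) := by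
        rw [hk, Nat.cast_mul, map_mul, hvk, one_mul]
      rw [map_mul, h3]
      calc v.valuation F (w : F) * v.valuation F (x - 1) ≤ 1 * v.valuation F (g : F) :=
            mul_le_mul' (vlez w v) (hx v hgv)
        _ = _ := one_mul _
  refine ⟨1 + (w : F) * (x - 1), hw0, hc1, fun v hv => ?_⟩
  obtain ⟨p, hp, hpv⟩ := exists_prime hN' hv
  by_cases hpk : p ∣ k
  · have hpk' : ¬ p ∣ k' := fun h => hp.one_lt.ne' (Nat.eq_one_of_dvd_coprimes hkk hpk h)
    have hvk : v.valuation F (k' : F) = 1 := vmul hp hpv hpk'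
    have hkv : (k' : 𝓞 F) ∉ v.asIdeal := notMem hp hpv hpk'
    have hgv : (g : 𝓞 F) ∈ v.asIdeal := by
      rw [hk', Nat.cast_mul] at hv
      exact (v.isPrime.mem_or_mem hv).resolve_left hkv
    have h3 : v.valuation F (N' : F) = v.valuation F (g : F) := by
      rw [hk', Nat.cast_mul, map_mul, hvk, one_mul]
    have h4 := hx v hgv
    have h5 : v.valuation F (1 + (w : F) * (x - 1) - 1) ≤ v.valuation F (g : F) := by
      rw [hy1, map_mul]
      calc v.valuation F (w : F) * v.valuation F (x - 1) ≤ 1 * v.valuation F (g : F) :=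
            mul_le_mul' (vlez w v) h4
        _ = _ := one_mul _
    have h6 := val_eq_one hgv h5
    rw [h3]
    have e : x / (1 + (w : F) * (x - 1)) - 1
        = ((x - 1) - (1 + (w : F) * (x - 1) - 1)) / (1 + (w : F) * (x - 1)) := by
      field_simp
      ring
    rw [e, map_div₀, h6, div_one]
    exact (Valuation.map_sub _ _ _).trans (max_le h4 h5)
  · have h1 := vle_m hp hpv hm0 (hB p hp hpk)
    have e : (1 + (w : F) * (x - 1)) / x - 1 = ((w - 1 : ℤ) : F) * (1 - x⁻¹) := by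
      push_cast
      field_simp
      ring
    have h2 : v.valuation F ((1 + (w : F) * (x - 1)) / x - 1) ≤ v.valuation F (N' : F) := by
      rw [e, map_mul]
      calc v.valuation F ((w - 1 : ℤ) : F) * v.valuation F (1 - x⁻¹)
          ≤ v.valuation F (m : F) * v.valuation F (1 - x⁻¹) := mul_le_mul_left h1 _
        _ = (v.valuation F (D2 : F) * v.valuation F (1 - x⁻¹)) * (v.valuation F (D1 : F)
            * (v.valuation F (N : F) * v.valuation F (N' : F))) := by
            rw [hvm]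
            ac_rfl
        _ ≤ 1 * (1 * (1 * v.valuation F (N' : F))) := by
            refine mul_le_mul' (hD2v v) (mul_le_mul' (vle D1 v) (mul_le_mul' (vle N v) le_rfl))
        _ = v.valuation F (N' : F) := by rw [one_mul, one_mul, one_mul]
    have h3 := val_eq_one hv h2
    have e2 : x / (1 + (w : F) * (x - 1)) - 1
        = -(((1 + (w : F) * (x - 1)) / x - 1) / ((1 + (w : F) * (x - 1)) / x)) := by
      field_simp
      ring
    rw [e2, Valuation.map_neg, map_div₀, h3, div_one]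
    exact h2

end

/-- PART 5 -/
theorem main : Pool.Agent.H500.AS.S_RayMul := by
  intro F _ _ N N' hN hN' x hx
  obtain ⟨y0, hy0, hc1, hc2⟩ := exists_y0 N N' hN hN' (x : F) x.ne_zero hx.1
  obtain ⟨z, hz1, hz2⟩ := Pool.Agent.Q84.AR.sgn F (N * N') (mul_ne_zero hN hN')
    (fun φ : F →+* ℝ => 0 < φ y0)
  have hzN : Cong N (z : F) := by
    intro v hv
    refine (hz1 v (Pool.Agent.Q182.AR.mem_dvd (dvd_mul_right N N') hv)).trans ?_
    rw [Nat.cast_mul, map_mul]
    exact mul_le_of_le_one_right' (vle N' v)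
  have hzN' : Cong N' (z : F) := by
    intro v hv
    refine (hz1 v (Pool.Agent.Q182.AR.mem_dvd (dvd_mul_left N' N) hv)).trans ?_
    rw [Nat.cast_mul, map_mul]
    exact mul_le_of_le_one_left' (vle N v)
  have hpos : Pos (y0 * (z : F)) := by
    intro φ
    rw [map_mul]
    have hy : φ y0 ≠ 0 := (map_ne_zero φ).2 hy0
    have hz : φ (z : F) ≠ 0 := (map_ne_zero φ).2 z.ne_zero
    by_cases h : 0 < φ y0
    · exact mul_pos h ((hz2 φ).2 h)
    · have h1 : φ y0 < 0 := lt_of_le_of_ne (not_lt.1 h) hy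
      have h2 : ¬ 0 < φ (z : F) := fun h3 => h ((hz2 φ).1 h3)
      have h3 : φ (z : F) < 0 := lt_of_le_of_ne (not_lt.1 h2) hz
      exact mul_pos_of_neg_of_neg h1 h3
  refine ⟨Units.mk0 y0 hy0 * z, ⟨?_, ?_⟩, x / (Units.mk0 y0 hy0 * z), ⟨?_, ?_⟩, ?_⟩
  · rw [Units.val_mul, Units.val_mk0]
    exact Pool.Agent.Q182.AR.cong_mul hc1 hzN
  · rw [Units.val_mul, Units.val_mk0]
    exact hpos
  · rw [Units.val_div_eq_div_val, Units.val_mul, Units.val_mk0]
    have e : (x : F) / (y0 * (z : F)) = (x : F) / y0 * (z : F)⁻¹ := by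
      rw [div_mul_eq_div_div, div_eq_mul_inv ((x : F) / y0)]
    rw [e]
    exact Pool.Agent.Q182.AR.cong_mul hc2 (Pool.Agent.Q182.AR.cong_inv hzN')
  · rw [Units.val_div_eq_div_val, Units.val_mul, Units.val_mk0, div_eq_mul_inv]
    exact Pool.Agent.Q182.AR.pos_mul hx.2 (Pool.Agent.Q182.AR.pos_inv hpos)
  · rw [mul_div_cancel]

end Pool.Agent.H962.AS.RayMul
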